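import Pool.Agent.V11218.SQL2

/-!
# A strict quasi-Lindelöf space with uncountable piecewise weak Lindelöf degree
-/

set_option autoImplicit false

open Set Cardinal

namespace Pool.Agent.Results.MP_a1e9e0_gt.StrictNotPiecewise

/-- Strict quasi-Lindelöf spaces: whenever a closed set `F` is covered by a family of open
sets decomposed into countably many subfamilies `𝒰 n`, there are countable `𝒱 n ⊆ 𝒰 n` such
that `F` is covered by the closures of the unions of the `𝒱 n`. -/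
def IsStrictQuasiLindelof (X : Type) [TopologicalSpace X] : Prop :=
  ∀ F : Set X, IsClosed F → ∀ 𝒰 : ℕ → Set (Set X), (∀ n, ∀ U ∈ 𝒰 n, IsOpen U) →
    F ⊆ ⋃ n, ⋃₀ 𝒰 n → ∃ 𝒱 : ℕ → Set (Set X), (∀ n, 𝒱 n ⊆ 𝒰 n ∧ (𝒱 n).Countable) ∧
      F ⊆ ⋃ n, closure (⋃₀ 𝒱 n)

/-- The piecewise weak Lindelöf property for closed sets with bound `κ`. -/
def HasPwL (κ : Cardinal.{0}) (X : Type) [TopologicalSpace X] : Prop :=
  ∀ F : Set X, IsClosed F → ∀ (I : Type) (𝒰 : I → Set (Set X)), (∀ i, ∀ U ∈ 𝒰 i, IsOpen U) →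
    F ⊆ ⋃ i, ⋃₀ 𝒰 i → ∃ 𝒱 : I → Set (Set X), (∀ i, 𝒱 i ⊆ 𝒰 i ∧ #(𝒱 i) ≤ κ) ∧
      F ⊆ ⋃ i, closure (⋃₀ 𝒱 i)

/-- The piecewise weak Lindelöf degree for closed sets. -/
noncomputable def pwLc (X : Type) [TopologicalSpace X] : Cardinal.{0} :=
  sInf {κ | HasPwL κ X}

/-- There is a `T₀` space that is strict quasi-Lindelöf and has `pwLc X > ℵ₀`. -/
theorem result : ∃ (X : Type) (_ : TopologicalSpace X),
    T0Space X ∧ IsStrictQuasiLindelof X ∧ ℵ₀ < pwLc X :=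
  Pool.Agent.V11218.SQL.exists_space

end Pool.Agent.Results.MP_a1e9e0_gt.StrictNotPiecewise
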